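import Pool.Agent.H89.TRI.Lib

/-! Module CHART: the chart tables. -/

open MvPolynomial

namespace Pool.TRI.K

private theorem chart_c (a : ℤ) (s s' t t' : ℝ) : evT [[a]] s s' t t' = a := by
  simp [evT]

private theorem chart_r (a b : ℤ) (s s' t t' : ℝ) : evT [[a, b]] s s' t t' = t' * a + t * b := by
  simp [evT]

private theorem chart_l (a b : ℤ) (s s' t t' : ℝ) : evT [[a], [b]] s s' t t' = s' * a + s * b := by
  simp [evT]

private theorem chart_l3 (a b c : ℤ) (s s' t t' : ℝ) :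
    evT [[a], [b], [c]] s s' t t' = s' ^ 2 * a + s * (s' * b + s * c) := by
  simp [evT]

private theorem chart_one (s s' t t' : ℝ) (hs : s + s' = 1) (ht : t + t' = 1) :
    evT [[1, 1], [1, 1]] s s' t t' = 1 := by
  simp only [evT, lin_cons, lin_nil, List.length_cons, List.length_nil, smul_eq_mul]
  have h1 : s' = 1 - s := by linarith
  have h2 : t' = 1 - t := by linarith
  subst h1 h2
  push_cast
  ring

private theorem chart_one3 (s s' t t' : ℝ) (hs : s + s' = 1) (ht : t + t' = 1) :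
    evT [[1, 1], [2, 2], [1, 1]] s s' t t' = 1 := by
  simp only [evT, lin_cons, lin_nil, List.length_cons, List.length_nil, smul_eq_mul]
  have h1 : s' = 1 - s := by linarith
  have h2 : t' = 1 - t := by linarith
  subst h1 h2
  push_cast
  ring

private theorem chart_rect (T : Tab) (a b : ℕ) (h1 : T.length = a) (h2 : ∀ r ∈ T, r.length = b) :
    Rect a b T := ⟨h1, h2⟩

theorem chart_thm (hM : TABMStmt) (hT : TABTStmt) : CHARTStmt := by
  obtain ⟨_, hm⟩ := hM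
  obtain ⟨hadd, hsm, _⟩ := hT
  intro typ q U0 U1 V0 V1 hq
  have hq0 : (q : ℝ) ≠ 0 := by exact_mod_cast hq.ne'
  have hqq : ((Int.mul q q : ℤ) : ℝ) = q ^ 2 := by
    show ((q * q : ℤ) : ℝ) = _
    push_cast; ring
  have h2q : ((Int.mul 2 q : ℤ) : ℝ) = 2 * q := by
    show ((2 * q : ℤ) : ℝ) = _
    push_cast; ring
  have rl : ∀ a b : ℤ, Rect (1 + 1) (0 + 1) [[a], [b]] := fun a b =>
    ⟨rfl, by intro r hr; simp only [List.mem_cons, List.not_mem_nil, or_false] at hr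
             rcases hr with rfl | rfl <;> rfl⟩
  have rl3 : ∀ a b c : ℤ, Rect (2 + 1) (0 + 1) [[a], [b], [c]] := fun a b c =>
    ⟨rfl, by intro r hr; simp only [List.mem_cons, List.not_mem_nil, or_false] at hr
             rcases hr with rfl | rfl | rfl <;> rfl⟩
  have rr : ∀ a b : ℤ, Rect (0 + 1) (1 + 1) [[a, b]] := fun a b =>
    ⟨rfl, by intro r hr; simp only [List.mem_cons, List.not_mem_nil, or_false] at hr
             rw [hr]; rfl⟩
  have rc : ∀ a : ℤ, Rect (0 + 1) (0 + 1) [[a]] := fun a =>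
    ⟨rfl, by intro r hr; simp only [List.mem_cons, List.not_mem_nil, or_false] at hr
             rw [hr]; rfl⟩
  have r22 : Rect 2 2 ([[1, 1], [1, 1]] : Tab) :=
    ⟨rfl, by intro r hr; simp only [List.mem_cons, List.not_mem_nil, or_false] at hr
             rcases hr with rfl | rfl <;> rfl⟩
  have r32 : Rect 3 2 ([[1, 1], [2, 2], [1, 1]] : Tab) :=
    ⟨rfl, by intro r hr; simp only [List.mem_cons, List.not_mem_nil, or_false] at hr
             rcases hr with rfl | rfl | rfl <;> rfl⟩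
  have q22 := hsm 2 2 (Int.mul q q) _ r22
  have q32 := hsm 3 2 (Int.mul q q) _ r32
  -- product of the column of `U` and the row of ones
  have hU := hm 0 1 1 0 _ _ (rr 1 1) (rl U0 U1)
  have hUV := hm 1 0 0 1 _ _ (rl U0 U1) (rr V0 V1)
  have hqU := hm 0 0 1 1 _ _ (rc q) hU.1
  have hqU3 := hm 1 0 1 1 _ _ (rl q q) hU.1
  have hqV3 := hm 2 0 0 1 _ _ (rl3 q (Int.mul 2 q) q) (rr V0 V1)
  have hUU := hm 1 0 1 0 _ _ (rl U0 U1) (rl U0 U1)
  have h1UU := hm 0 1 2 0 _ _ (rr 1 1) hUU.1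
  cases typ with
  | false =>
    show Rect 2 2 (mpT (Int.mul (Int.mul q q)) [[1, 1], [1, 1]]) ∧
      Rect 2 2 (zw (zw Int.sub) (mpT (Int.mul (Int.mul q q)) [[1, 1], [1, 1]]) (mulT [[U0], [U1]] [[V0, V1]])) ∧
      Rect 2 2 (zw (zw Int.sub) (mpT (Int.mul (Int.mul q q)) [[1, 1], [1, 1]]) (mulT [[q]] (mulT [[1, 1]] [[U0], [U1]]))) ∧
      ∀ s s' t t' : ℝ, s + s' = 1 → t + t' = 1 →
      evT (mpT (Int.mul (Int.mul q q)) [[1, 1], [1, 1]]) s s' t t' = q ^ 2 * chi false ((U0 * s' + U1 * s) / q) ((V0 * t' + V1 * t) / q) 0 ∧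
      evT (zw (zw Int.sub) (mpT (Int.mul (Int.mul q q)) [[1, 1], [1, 1]]) (mulT [[U0], [U1]] [[V0, V1]])) s s' t t' = q ^ 2 * chi false ((U0 * s' + U1 * s) / q) ((V0 * t' + V1 * t) / q) 1 ∧
      evT (zw (zw Int.sub) (mpT (Int.mul (Int.mul q q)) [[1, 1], [1, 1]]) (mulT [[q]] (mulT [[1, 1]] [[U0], [U1]]))) s s' t t' = q ^ 2 * chi false ((U0 * s' + U1 * s) / q) ((V0 * t' + V1 * t) / q) 2
    have hB := hadd 2 2 _ _ q22.2.1 hUV.1
    have hC := hadd 2 2 _ _ q22.2.1 hqU.1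
    refine ⟨q22.2.1, hB.2.1, hC.2.1, ?_⟩
    intro s s' t t' hs ht
    have e1 := (q22.2.2 s s' t t').2
    rw [hqq, chart_one s s' t t' hs ht, mul_one] at e1
    have e2 := (hB.2.2 s s' t t').2
    rw [e1, hUV.2, chart_l, chart_r] at e2
    have e3 := (hC.2.2 s s' t t').2
    rw [e1, hqU.2, hU.2, chart_c, chart_l, chart_r] at e3
    have c0 : chi false ((U0 * s' + U1 * s) / q) ((V0 * t' + V1 * t) / q) 0 = 1 := rfl
    have c1 : chi false ((U0 * s' + U1 * s) / q) ((V0 * t' + V1 * t) / q) 1 =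
      1 - ((U0 * s' + U1 * s) / q) * ((V0 * t' + V1 * t) / q) := rfl
    have c2 : chi false ((U0 * s' + U1 * s) / q) ((V0 * t' + V1 * t) / q) 2 =
      1 - ((U0 * s' + U1 * s) / q) := rfl
    refine ⟨?_, ?_, ?_⟩
    · rw [c0, mul_one]; exact e1
    · rw [c1]
      refine e2.trans ?_
      field_simp
    · rw [c2]
      refine e3.trans ?_
      have : t' * ((1 : ℤ) : ℝ) + t * ((1 : ℤ) : ℝ) = 1 := by push_cast; linarith
      rw [this]
      field_simp
  | true =>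
    show Rect 3 2 (mulT [[q], [q]] (mulT [[1, 1]] [[U0], [U1]])) ∧
      Rect 3 2 (zw (zw Int.sub) (mpT (Int.mul (Int.mul q q)) [[1, 1], [2, 2], [1, 1]]) (mulT [[q], [q]] (mulT [[1, 1]] [[U0], [U1]]))) ∧
      Rect 3 2 (addT (zw (zw Int.sub) (mulT [[q], [Int.mul 2 q], [q]] [[V0, V1]]) (mulT [[q], [q]] (mulT [[1, 1]] [[U0], [U1]])))
        (mulT [[1, 1]] (mulT [[U0], [U1]] [[U0], [U1]]))) ∧
      ∀ s s' t t' : ℝ, s + s' = 1 → t + t' = 1 →
      evT (mulT [[q], [q]] (mulT [[1, 1]] [[U0], [U1]])) s s' t t' = q ^ 2 * chi true ((U0 * s' + U1 * s) / q) ((V0 * t' + V1 * t) / q) 0 ∧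
      evT (zw (zw Int.sub) (mpT (Int.mul (Int.mul q q)) [[1, 1], [2, 2], [1, 1]]) (mulT [[q], [q]] (mulT [[1, 1]] [[U0], [U1]]))) s s' t t' = q ^ 2 * chi true ((U0 * s' + U1 * s) / q) ((V0 * t' + V1 * t) / q) 1 ∧
      evT (addT (zw (zw Int.sub) (mulT [[q], [Int.mul 2 q], [q]] [[V0, V1]]) (mulT [[q], [q]] (mulT [[1, 1]] [[U0], [U1]])))
        (mulT [[1, 1]] (mulT [[U0], [U1]] [[U0], [U1]]))) s s' t t' = q ^ 2 * chi true ((U0 * s' + U1 * s) / q) ((V0 * t' + V1 * t) / q) 2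
    have hB := hadd 3 2 _ _ q32.2.1 hqU3.1
    have hC := hadd 3 2 _ _ hqV3.1 hqU3.1
    have hD := hadd 3 2 _ _ hC.2.1 h1UU.1
    refine ⟨hqU3.1, hB.2.1, hD.1, ?_⟩
    intro s s' t t' hs ht
    have et : t' * ((1 : ℤ) : ℝ) + t * ((1 : ℤ) : ℝ) = 1 := by push_cast; linarith
    have es : s' * (q : ℝ) + s * (q : ℝ) = q := by
      rw [← add_mul, add_comm s' s, hs, one_mul]
    have e0 := hqU3.2 s s' t t'
    rw [hU.2, chart_l, chart_l, chart_r, et, es, one_mul] at e0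
    have e1 := (hB.2.2 s s' t t').2
    rw [(q32.2.2 s s' t t').2, hqq, chart_one3 s s' t t' hs ht, mul_one, e0] at e1
    have e2 := (hD.2.2 s s' t t').1
    rw [(hC.2.2 s s' t t').2, hqV3.2, e0, h1UU.2, hUU.2, chart_l, chart_l3, chart_r, chart_r, et,
      one_mul, h2q] at e2
    have c0 : chi true ((U0 * s' + U1 * s) / q) ((V0 * t' + V1 * t) / q) 0 =
      ((U0 * s' + U1 * s) / q) := rfl
    have c1 : chi true ((U0 * s' + U1 * s) / q) ((V0 * t' + V1 * t) / q) 1 =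
      1 - ((U0 * s' + U1 * s) / q) := rfl
    have c2 : chi true ((U0 * s' + U1 * s) / q) ((V0 * t' + V1 * t) / q) 2 =
      ((V0 * t' + V1 * t) / q) - ((U0 * s' + U1 * s) / q) * (1 - ((U0 * s' + U1 * s) / q)) := rfl
    have h1 : s' = 1 - s := by linarith
    refine ⟨?_, ?_, ?_⟩
    · rw [c0]
      refine e0.trans ?_
      field_simp
    · rw [c1]
      refine e1.trans ?_
      field_simp
    · rw [c2]
      refine e2.trans ?_
      subst h1
      field_simp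
      ring

end Pool.TRI.K
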