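import Pool.Agent.H89.TRI.Lib

/-! Module EVN: degree of the polynomial of a net. -/

open MvPolynomial

namespace Pool.TRI.K

private theorem evn_row (l : Row) : ∀ n : ℕ, l.length = n + 1 →
    (lin (A := MP) (fun a : ℤ => (C (a : ℝ) : MP)) l (X 1) (X 2)).IsHomogeneous n := by
  induction l with
  | nil => intro n h; simp at h
  | cons a l ih =>
    intro n h
    simp only [List.length_cons, add_left_inj] at h
    rw [lin_cons, smul_eq_mul, smul_eq_mul, h]
    refine IsHomogeneous.add ?_ ?_
    · have h1 := ((isHomogeneous_X (R := ℝ) (2 : Fin 3)).pow n).mul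
        (isHomogeneous_C (Fin 3) (a : ℝ))
      simpa using h1
    · cases n with
      | zero =>
        have : l = [] := List.length_eq_zero_iff.1 h
        subst this
        simpa using isHomogeneous_zero (Fin 3) ℝ 0
      | succ k =>
        have h1 := (isHomogeneous_X (R := ℝ) (1 : Fin 3)).mul (ih k h)
        rw [add_comm] at h1
        exact h1

private theorem evn_net (P : Net) : ∀ n : ℕ, Sh (n + 1) P →
    (ter (A := MP) (fun a : ℤ => (C (a : ℝ) : MP)) P (X 0) (X 1) (X 2)).IsHomogeneous n := by
  induction P with
  | nil => intro n h; exact h.elim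
  | cons r P ih =>
    intro n h
    obtain ⟨h1, h2⟩ := (Sh_cons n r P).1 h
    rw [ter_cons, smul_eq_mul]
    refine IsHomogeneous.add (evn_row r n h1) ?_
    cases n with
    | zero =>
      rw [Sh_zero] at h2
      subst h2
      simpa using isHomogeneous_zero (Fin 3) ℝ 0
    | succ k =>
      have h3 := (isHomogeneous_X (R := ℝ) (0 : Fin 3)).mul (ih k h2)
      rw [add_comm] at h3
      exact h3

theorem evn : EVNStmt := fun n P hP => ⟨evn_net P n hP, fun x => evx_toP P x⟩

end Pool.TRI.K
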