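import Pool.Agent.H89.TRI.Lib

/-! Module M123: the net of `x1 x2 x3 psi`. -/

open MvPolynomial

namespace Pool.TRI.K

private theorem m123_snoc {α : Type} (l : List α) (x : α) : snoc l x = l ++ [x] := by
  induction l with
  | nil => rfl
  | cons a l ih => show a :: snoc l x = _; rw [ih]; rfl

private theorem m123_zeros_len (n : ℕ) : (zerosR n).length = n := by
  induction n with
  | zero => rfl
  | succ n ih => show ((0 : ℤ) :: zerosR n).length = _; simp [ih]

private theorem m123_zeros_lin (n : ℕ) (y z : MP) :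
    lin (A := MP) (fun a : ℤ => (C (a : ℝ) : MP)) (zerosR n) y z = 0 := by
  induction n with
  | zero => rfl
  | succ n ih =>
    show lin (A := MP) (fun a : ℤ => (C (a : ℝ) : MP)) ((0 : ℤ) :: zerosR n) y z = 0
    rw [lin_cons, ih]; simp

private theorem m123_row (r : Row) (y z : MP) :
    lin (A := MP) (fun a : ℤ => (C (a : ℝ) : MP)) (0 :: (r ++ [0])) y z =
      y * z * lin (A := MP) (fun a : ℤ => (C (a : ℝ) : MP)) r y z := by
  rw [lin_cons, lin_append_single]
  simp [smul_eq_mul, mul_assoc]

private theorem m123_ter (P : Net) (x y z : MP) :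
    ter (A := MP) (fun a : ℤ => (C (a : ℝ) : MP))
      ((P.map (fun r => 0 :: (r ++ [0]))) ++ [[0, 0], [0]]) x y z =
      y * z * ter (A := MP) (fun a : ℤ => (C (a : ℝ) : MP)) P x y z := by
  induction P with
  | nil => simp
  | cons r P ih =>
    rw [List.map_cons, List.cons_append, ter_cons, ih, m123_row, ter_cons]
    simp only [smul_eq_mul]
    ring

private theorem m123_sh (P : Net) : ∀ n : ℕ, Sh n P →
    Sh (n + 2) ((P.map (fun r => (0 : ℤ) :: (r ++ [0]))) ++ [[0, 0], [0]]) := by
  induction P with
  | nil =>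
    intro n h
    cases n with
    | zero => exact ⟨rfl, rfl, rfl⟩
    | succ n => exact h.elim
  | cons r P ih =>
    intro n h
    cases n with
    | zero => rw [Sh_zero] at h; simp at h
    | succ n =>
      obtain ⟨h1, h2⟩ := (Sh_cons n r P).1 h
      rw [List.map_cons, List.cons_append]
      refine ⟨?_, ih n h2⟩
      simp [h1]

theorem m123_thm : M123Stmt := by
  intro m psi h
  have he : m123 m psi =
      zerosR (m + 4) :: ((psi.map (fun r => (0 : ℤ) :: (r ++ [0]))) ++ [[0, 0], [0]]) := by
    unfold m123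
    rw [m123_snoc, m123_snoc, mp_eq, List.append_assoc]
    have : (fun r : List ℤ => (0 : ℤ) :: snoc r 0) = fun r => (0 : ℤ) :: (r ++ [0]) := by
      funext r; rw [m123_snoc]
    rw [this]
    rfl
  rw [he]
  constructor
  · exact ⟨m123_zeros_len _, m123_sh psi (m + 1) h⟩
  · unfold toP
    rw [ter_cons, m123_zeros_lin, m123_ter, zero_add, smul_eq_mul]
    ring

end Pool.TRI.K
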