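import Pool.Agent.H89.TRI.Lib

/-! Module SHP: the shape tests. -/

open MvPolynomial

namespace Pool.TRI.K

private theorem shp_sh (α : Type) (n : ℕ) : ∀ P : List (List α), shN n P = true ↔ Sh n P := by
  induction n with
  | zero =>
    intro P
    cases P with
    | nil => exact ⟨fun _ => rfl, fun _ => rfl⟩
    | cons r P =>
      constructor
      · intro h; exact absurd (show false = true from h) Bool.false_ne_true
      · intro h; exact absurd (show r :: P = [] from h) (List.cons_ne_nil r P)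
  | succ n ih =>
    intro P
    cases P with
    | nil =>
      constructor
      · intro h; exact absurd (show false = true from h) Bool.false_ne_true
      · intro h; exact h.elim
    | cons r P =>
      show and2 (Nat.beq (len r) (Nat.succ n)) (shN n P) = true ↔ (r.length = n + 1 ∧ Sh n P)
      rw [and2_iff, ih P, len_eq]
      refine and_congr ?_ Iff.rfl
      exact ⟨Nat.eq_of_beq_eq_true, fun h => by rw [h]; exact Nat.beq_refl _⟩

private theorem shp_beq (m n : ℕ) : Nat.beq m n = true ↔ m = n :=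
  ⟨Nat.eq_of_beq_eq_true, fun h => by rw [h]; exact Nat.beq_refl _⟩

private theorem shp_rect (α : Type) (a b : ℕ) (f : α → Bool) (T : List (List α)) :
    rectB a b f T = true ↔ Rect a b T ∧ ∀ r ∈ T, ∀ x ∈ r, f x = true := by
  unfold rectB Rect
  rw [and2_iff, len_eq, shp_beq, allR_iff]
  constructor
  · rintro ⟨h1, h2⟩
    refine ⟨⟨h1, fun r hr => ?_⟩, fun r hr => ?_⟩
    · have := h2 r hr
      rw [and2_iff, len_eq, shp_beq] at this
      exact this.1
    · have := h2 r hr
      rw [and2_iff, allR_iff] at this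
      exact this.2
  · rintro ⟨⟨h1, h2⟩, h3⟩
    refine ⟨h1, fun r hr => ?_⟩
    rw [and2_iff, len_eq, shp_beq, allR_iff]
    exact ⟨h2 r hr, h3 r hr⟩

theorem shp : SHPStmt := by
  refine ⟨shp_sh, shp_rect, posI_iff, ?_, ?_⟩
  · intro b
    unfold shape ShT
    rw [and2_iff, and2_iff, and2_iff, and2_iff, and2_iff, shp_rect, shp_rect, posI_iff, posI_iff,
      posI_iff, posI_iff]
    have h1 : (∀ r ∈ b.P, ∀ x ∈ r, shN (Nat.add b.n 3) x = true) ↔
        ∀ r ∈ b.P, ∀ x ∈ r, Sh (b.n + 3) x :=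
      forall₂_congr fun r _ => forall₂_congr fun x _ => shp_sh _ _ _
    have h2 : (∀ r ∈ b.psi, ∀ x ∈ r, shN (Nat.add b.m 1) x = true) ↔
        ∀ r ∈ b.psi, ∀ x ∈ r, Sh (b.m + 1) x :=
      forall₂_congr fun r _ => forall₂_congr fun x _ => shp_sh _ _ _
    have h3 : (0 < Int.sub b.U1 b.U0) ↔ b.U0 < b.U1 := by
      show 0 < b.U1 - b.U0 ↔ _
      exact sub_pos
    have h4 : (0 < Int.sub b.V1 b.V0) ↔ b.V0 < b.V1 := by
      show 0 < b.V1 - b.V0 ↔ _
      exact sub_pos
    rw [h1, h2, h3, h4]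
  · intro Q
    unfold shapeQ
    have hb : ∀ n : ℕ, Nat.blt 0 n = true ↔ 0 < n := fun n => by rw [Nat.blt_eq]
    simp only [and2_iff, shp_rect, posI_iff, hb]
    constructor
    · rintro ⟨h1, h2, h3, h4⟩
      exact ⟨h1.1, h2.1, h3.1, h4⟩
    · rintro ⟨h1, h2, h3, h4⟩
      exact ⟨⟨h1, fun _ _ _ _ => trivial⟩, ⟨h2, fun _ _ _ _ => trivial⟩,
        ⟨h3, fun _ _ _ _ => trivial⟩, h4⟩

end Pool.TRI.K
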