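import Pool.Agent.H89.TRI.Lib

/-! Module TABT: tables of integers, sums, multiples, powers. -/

open MvPolynomial

namespace Pool.TRI.K

section TabtGen
variable {A M α β : Type} [CommSemiring A] [AddCommMonoid M] [Module A M]

/-- `lin_zip` with the hypothesis restricted to the entries -/
private theorem tabt_zip (g : α → β → β) (f : β → M) (f1 : α → M) (f2 : β → M)
    (l : List α) (m : List β) (hl : l.length = m.length)
    (h : ∀ a ∈ l, ∀ b ∈ m, f (g a b) = f1 a + f2 b) (y z : A) :
    lin f (List.zipWith g l m) y z = lin f1 l y z + lin f2 m y z := by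
  induction l generalizing m with
  | nil => cases m with
    | nil => simp
    | cons b m => simp at hl
  | cons a l ih => cases m with
    | nil => simp at hl
    | cons b m =>
      simp only [List.length_cons, add_left_inj] at hl
      have hab := h a (by simp) b (by simp)
      have ih' := ih m hl (fun a' ha' b' hb' => h a' (by simp [ha']) b' (by simp [hb']))
      simp only [List.zipWith_cons_cons, lin_cons, ih', hab, smul_add, List.length_zipWith, hl, min_self]
      abel

/-- a short list added to the front part of a longer one -/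
private theorem tabt_zl (f : β → M) (add : β → β → β) (h : ∀ a b, f (add a b) = f a + f b)
    (l m : List β) (hl : l.length ≤ m.length) (y z : A) :
    lin f (zl add l m) y z = z ^ (m.length - l.length) • lin f l y z + lin f m y z := by
  induction l generalizing m with
  | nil => simp
  | cons a l ih => cases m with
    | nil => simp at hl
    | cons b m =>
      simp only [List.length_cons, add_le_add_iff_right] at hl
      rw [zl_cons, lin_cons, lin_cons, lin_cons, ih m hl, h, zl_length, max_eq_right hl]
      simp only [List.length_cons, Nat.add_sub_add_right, smul_add, smul_smul]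
      rw [← pow_add, Nat.sub_add_cancel hl, mul_comm y (z ^ (m.length - l.length))]
      abel

end TabtGen

private theorem tabt_bin_succ (n : ℕ) (e : ℤ) (E : List ℤ) (h : binR n = e :: E) :
    binR (n + 1) = e :: zl Int.add E (e :: E) := by
  show cv Int.add Int.mul [1, 1] (binR n) = _
  have hone : ∀ l : List ℤ, l.map (Int.mul 1) = l := by
    intro l
    conv_rhs => rw [← List.map_id l]
    apply List.map_congr_left
    intro a _
    exact one_mul a
  rw [h, cv_cons, cv_cons, cv_nil, zl_nil', hone]
  show Int.mul 1 e :: zl Int.add E (Int.mul 1 e :: E) = _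
  have : Int.mul 1 e = e := one_mul e
  rw [this]

private theorem tabt_bin (n : ℕ) : (binR n).length = n + 1 ∧
    ∀ y z : ℝ, lin (A := ℝ) (fun a : ℤ => (a : ℝ)) (binR n) y z = (y + z) ^ n := by
  induction n with
  | zero =>
    refine ⟨rfl, fun y z => ?_⟩
    show lin (A := ℝ) (fun a : ℤ => (a : ℝ)) [1] y z = _
    simp
  | succ n ih =>
    obtain ⟨h1, h2⟩ := ih
    have hne : binR n ≠ [] := by
      intro h; rw [h] at h1; simp at h1
    obtain ⟨e, E, hE⟩ := List.exists_cons_of_ne_nil hne
    rw [tabt_bin_succ n e E hE]
    rw [hE] at h1 h2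
    constructor
    · rw [List.length_cons, zl_length]
      simp only [List.length_cons] at h1 ⊢
      omega
    · intro y z
      have h3 := h2 y z
      rw [lin_cons, tabt_zl _ _ (fun a b => by
        show ((a + b : ℤ) : ℝ) = _
        push_cast; ring) E (e :: E) (by simp), h3, pow_succ, ← h3, zl_length, lin_cons]
      simp only [List.length_cons, smul_eq_mul]
      rw [show E.length + 1 - E.length = 1 by omega, max_eq_right (by omega : E.length ≤ E.length + 1)]
      ring

private theorem tabt_rect_zip (g : ℤ → ℤ → ℤ) (a b : ℕ) (T S : Tab) (hT : Rect a b T)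
    (hS : Rect a b S) : Rect a b (zw (zw g) T S) := by
  rw [zw_eq]
  refine ⟨by rw [List.length_zipWith, hT.1, hS.1, min_self], ?_⟩
  intro r hr
  obtain ⟨i, hi, rfl⟩ := List.getElem_of_mem hr
  rw [List.getElem_zipWith, zw_eq, List.length_zipWith, hT.2 _ (List.getElem_mem _),
    hS.2 _ (List.getElem_mem _), min_self]

private theorem tabt_rect_map (g : ℤ → ℤ) (a b : ℕ) (T : Tab) (hT : Rect a b T) :
    Rect a b (mp (mp g) T) := by
  rw [mp_eq]
  refine ⟨by rw [List.length_map, hT.1], ?_⟩
  intro r hr
  obtain ⟨r', hr', rfl⟩ := List.mem_map.1 hr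
  rw [mp_eq, List.length_map, hT.2 _ hr']

private theorem tabt_ev_map (c : ℤ) (T : Tab) (s s' t t' : ℝ) :
    evT (mp (mp (Int.mul c)) T) s s' t t' = c * evT T s s' t t' := by
  unfold evT
  rw [mp_eq, lin_map]
  have h1 : ∀ r ∈ T, lin (A := ℝ) (fun a : ℤ => (a : ℝ)) (mp (Int.mul c) r) t t' =
      (c : ℝ) • lin (A := ℝ) (fun a : ℤ => (a : ℝ)) r t t' := by
    intro r _
    rw [mp_eq, lin_map, ← lin_smul]
    apply lin_congr
    intro a _
    show ((c * a : ℤ) : ℝ) = _
    push_cast
    rfl
  rw [lin_congr T h1, lin_smul, smul_eq_mul]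

theorem tabt : TABTStmt := by
  refine ⟨?_, ?_, ?_⟩
  · intro a b T S hT hS
    refine ⟨tabt_rect_zip _ a b T S hT hS, tabt_rect_zip _ a b T S hT hS, ?_⟩
    intro s s' t t'
    constructor
    · unfold evT addT
      rw [zw_eq]
      apply tabt_zip
      · rw [hT.1, hS.1]
      · intro r hr q hq
        rw [zw_eq]
        apply tabt_zip
        · rw [hT.2 _ hr, hS.2 _ hq]
        · intro x _ y _
          show ((x + y : ℤ) : ℝ) = _
          push_cast
          ring
    · unfold evT
      rw [zw_eq, sub_eq_add_neg]
      have hneg : -lin (A := ℝ) (fun r => lin (A := ℝ) (fun a : ℤ => (a : ℝ)) r t t') S s s' =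
          lin (A := ℝ) (fun r => lin (A := ℝ) (fun a : ℤ => -(a : ℝ)) r t t') S s s' := by
        rw [← neg_one_mul, ← smul_eq_mul, ← lin_smul]
        apply lin_congr
        intro r _
        rw [← lin_smul]
        apply lin_congr
        intro x _
        simp
      rw [hneg]
      apply tabt_zip
      · rw [hT.1, hS.1]
      · intro r hr q hq
        rw [zw_eq]
        apply tabt_zip
        · rw [hT.2 _ hr, hS.2 _ hq]
        · intro x _ y _
          show ((x - y : ℤ) : ℝ) = _
          push_cast
          ring
  · intro a b c T hT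
    exact ⟨tabt_rect_map _ a b T hT, tabt_rect_map _ a b T hT, fun s s' t t' =>
      ⟨tabt_ev_map c T s s' t t', tabt_ev_map c T s s' t t'⟩⟩
  · intro a b
    have hb := tabt_bin b
    have ha := tabt_bin a
    refine ⟨⟨?_, ?_⟩, ?_⟩
    · unfold oneT
      rw [mp_eq, List.length_map, ha.1]
    · intro r hr
      unfold oneT at hr
      rw [mp_eq] at hr
      obtain ⟨c, _, rfl⟩ := List.mem_map.1 hr
      rw [mp_eq, List.length_map, hb.1]
    · intro s s' t t'
      unfold evT oneT
      rw [mp_eq, lin_map]
      have h1 : ∀ c ∈ binR a, lin (A := ℝ) (fun x : ℤ => (x : ℝ)) (mp (Int.mul c) (binR b)) t t' =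
          (t + t') ^ b • (c : ℝ) := by
        intro c _
        rw [← hb.2 t t', mp_eq, lin_map, smul_eq_mul, mul_comm, ← smul_eq_mul, ← lin_smul]
        apply lin_congr
        intro x _
        show ((c * x : ℤ) : ℝ) = _
        push_cast
        rfl
      rw [lin_congr (binR a) h1, lin_smul, ha.2, smul_eq_mul, mul_comm]

end Pool.TRI.K
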